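import Pool.Agent.Helper61.P3.St4

/-!
# Project P3 (MP_cb927e_an), module RIY: change of the index of summation
-/

set_option autoImplicit false

open MeasureTheory Set Filter Topology
open scoped ENNReal RealInnerProductSpace

namespace Pool.Agent.Helper98.P3

open Pool.Agent.Helper61.P3 Pool.Agent.Helper20.RG Pool.Agent.Helper20.EQ
open Pool.Agent.Helper68.LM (Pl BB Bd Av HL ft fm DQ)
open Pool.Agent.Helper68.EP (elt GapP)

theorem hRIY (hGDL : Pool.Agent.Helper20.EQ.StGDL) : Pool.Agent.Helper61.P3.StRIY := by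
  obtain ⟨h1, -, h3⟩ := hGDL
  intro B X hB hX f n hf hf0
  have key : ∀ j : ℤ, ENNReal.ofReal ((2 : ℝ) ^ (3 * (j + (1 - (n : ℤ))))) *
      ∑' u : ℕ, X u (lev f (j + (1 - (n : ℤ)) - 1 + n)) ≤
      ENNReal.ofReal (8 * (2 : ℝ) ^ (-(3 * (n : ℤ))) * B) *
        (ENNReal.ofReal ((2 : ℝ) ^ ((3 : ℝ) * j)) * ∫⁻ x, ‖lev f j x‖ₑ ^ 2) := by
    intro j
    have e1 : j + (1 - (n : ℤ)) - 1 + n = j := by ring
    rw [e1]
    obtain ⟨g1, g2⟩ := h1 f j hf hf0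
    refine le_trans (mul_le_mul_right (hX _ g1 g2) _) (le_of_eq ?_)
    rw [← mul_assoc, ← mul_assoc, ← ENNReal.ofReal_mul (by positivity),
      ← ENNReal.ofReal_mul (by positivity)]
    congr 2
    have e2 : (2 : ℝ) ^ ((3 : ℝ) * j) = (2 : ℝ) ^ (3 * j) := by
      rw [← Real.rpow_intCast]
      congr 1
      push_cast
      ring
    have e3 : (2 : ℝ) ^ (3 * (j + (1 - (n : ℤ)))) = 8 * (2 : ℝ) ^ (-(3 * (n : ℤ))) * (2 : ℝ) ^ (3 * j) := by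
      have e4 : 3 * (j + (1 - (n : ℤ))) = 3 + -(3 * (n : ℤ)) + 3 * j := by ring
      rw [e4, zpow_add₀ (by norm_num), zpow_add₀ (by norm_num)]
      norm_num
    rw [e2, e3]
    ring
  calc ∑' l : ℤ, ENNReal.ofReal ((2 : ℝ) ^ (3 * l)) * ∑' u : ℕ, X u (lev f (l - 1 + n))
      = ∑' j : ℤ, ENNReal.ofReal ((2 : ℝ) ^ (3 * (j + (1 - (n : ℤ))))) *
          ∑' u : ℕ, X u (lev f (j + (1 - (n : ℤ)) - 1 + n)) :=
        ((Equiv.addRight (1 - (n : ℤ))).tsum_eq (fun l : ℤ => ENNReal.ofReal ((2 : ℝ) ^ (3 * l)) *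
          ∑' u : ℕ, X u (lev f (l - 1 + n)))).symm
    _ ≤ ∑' j : ℤ, ENNReal.ofReal (8 * (2 : ℝ) ^ (-(3 * (n : ℤ))) * B) *
        (ENNReal.ofReal ((2 : ℝ) ^ ((3 : ℝ) * j)) * ∫⁻ x, ‖lev f j x‖ₑ ^ 2) :=
        ENNReal.tsum_le_tsum key
    _ = ENNReal.ofReal (8 * (2 : ℝ) ^ (-(3 * (n : ℤ))) * B) *
        ∑' j : ℤ, (ENNReal.ofReal ((2 : ℝ) ^ ((3 : ℝ) * j)) * ∫⁻ x, ‖lev f j x‖ₑ ^ 2) :=
        ENNReal.tsum_mul_left
    _ ≤ _ := mul_le_mul_right (h3 3 f (by norm_num) hf hf0) _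

end Pool.Agent.Helper98.P3
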